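import Pool.Agent.X249.MSy.InNP

/-!
# Matrix symmetry under row permutations is NP-complete

The reduction is from 3SAT. Padding rows and columns give every class of rows and columns its own
range of degrees, so a symmetrizing permutation acts on every class separately. A class with two
members is a bit. A class with four members (the edges or the points of a square) is made to carry
a member of the dihedral group of the square, which has two bits that are never both one; three
such classes and a class with four even and four odd vectors form a clause.
-/

namespace Pool.Agent.Results.MP_e2e0ab_lc.MatrixSymmetryNPComplete

open Pool.Agent.NPC Pool.Agent.X249.MSy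

/-- Matrix symmetry is NP-complete. Hence it is equivalent to graph isomorphism iff graph
isomorphism is NP-hard: this holds for polynomial-time many-one reductions, and more generally for
every transitive reducibility that contains them, such as polynomial-time Turing reducibility. -/
theorem result : InNPP MS ∧ NPHardP MS ∧
    ((Reduces (lang MS) (lang GI) ∧ Reduces (lang GI) (lang MS)) ↔ NPHardP GI) ∧
    ∀ R : Set (List Bool) → Set (List Bool) → Prop, (∀ L L', Reduces L L' → R L L') →
      (∀ L L' L'', R L L' → R L' L'' → R L L'') →
      ((R (lang MS) (lang GI) ∧ R (lang GI) (lang MS)) ↔ ∀ L, InNP L → R L (lang GI)) :=
  ⟨inNP, hard.toNPHardP,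
    equivalent_iff Reduces (fun _ _ h => h) (fun _ _ _ h h' => h.trans h'), equivalent_iff⟩

end Pool.Agent.Results.MP_e2e0ab_lc.MatrixSymmetryNPComplete
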